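import Mathlib
import Pool.Agent.H932R3.Nagata
import Pool.Agent.W610.UpExp

set_option autoImplicit false

/-!
# Emptiness with exponential precision
-/

namespace Pool.Agent.W614.NagExp

open Pool.Agent.H932R3 Pool.Agent.H932R5

theorem up_reach {σ : ℝ} (h : Up 16 σ) : Reach 4 σ := by
  induction h with
  | base =>
    have h1 : (16 : ℝ) = ((4 : ℕ) : ℝ) ^ 2 := by norm_num
    rw [h1]
    exact Reach.base
  | step σ ρ _ h2 ih => exact Reach.step σ ρ ih h2

theorem of_close' {r m d δ : ℕ} {σ : ℝ} (hδ : 4 ≤ δ) (hδr : δ * δ ≤ r) (hσ : Reach δ σ)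
    (h0 : σ ≤ r) (h : (d : ℝ) ^ 2 ≤ m ^ 2 * σ) : Empt r m d := by
  have hσ0 : 0 < σ := hσ.pos (by omega)
  have hs0 := Real.sqrt_pos.2 hσ0
  have hss : Real.sqrt σ * Real.sqrt σ = σ := Real.mul_self_sqrt hσ0.le
  have h1 : (d : ℝ) ≤ m * Real.sqrt σ := by
    refine le_of_sq_le_sq ?_ (by positivity)
    rw [mul_pow, pow_two (Real.sqrt σ), hss]
    exact h
  refine ⟨δ, σ, hδ, hδr, hσ, h1, ?_⟩
  calc (d : ℝ) * Real.sqrt σ ≤ m * Real.sqrt σ * Real.sqrt σ :=
        mul_le_mul_of_nonneg_right h1 hs0.le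
    _ = m * σ := by rw [mul_assoc, hss]
    _ ≤ m * r := mul_le_mul_of_nonneg_left h0 (Nat.cast_nonneg m)

/-- Emptiness in exponential ranges. -/
theorem empt_exp {r m d : ℕ} (hr : 2 ^ 1000 ≤ r) (hd : 0 < d)
    (h : (d ^ 2 ≤ r * m ^ 2 ∧ (m : ℝ) ≤ Real.exp ((r : ℝ) ^ (1 / 10 : ℝ) / 2)) ∨
      (1 + Real.exp (-((r : ℝ) ^ (1 / 10 : ℝ))) / r) * d ≤ m * Real.sqrt r) : Empt r m d := by
  have hr0 : (2 : ℝ) ^ 1000 ≤ r := by exact_mod_cast hr
  have hr16 : 16 ≤ r := by
    refine le_trans ?_ hr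
    calc 16 = 2 ^ 4 := by norm_num
      _ ≤ 2 ^ 1000 := Nat.pow_le_pow_right (by norm_num) (by norm_num)
  obtain ⟨σ, hσ, h0, h1⟩ := W610.exists_up_exp (s0 := 16) (u := r) (by norm_num) hr0 (by
    have h2 : (2 : ℝ) ^ 1000 = 2 ^ 16 * 2 ^ 984 := by rw [← pow_add]
    have h3 : (1 : ℝ) ≤ 2 ^ 984 := one_le_pow₀ (by norm_num)
    have h4 : (2 : ℝ) ^ 16 ≤ r := by
      refine le_trans ?_ hr0
      rw [h2]
      exact le_mul_of_one_le_right (by positivity) h3
    have h5 : (1 : ℝ) ≤ r := le_trans (by norm_num) h4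
    have h6 : (16 : ℝ) ^ 4 ≤ r := by
      refine le_trans (by norm_num) h4
    exact h6.trans (le_self_pow₀ h5 (by norm_num)))
  clear hr hr0
  have hσ' : Reach 4 σ := up_reach hσ
  have hσ0 : 0 < σ := hσ'.pos (by omega)
  have hrR : (16 : ℝ) ≤ r := by exact_mod_cast hr16
  obtain ⟨X, hX⟩ : ∃ X : ℝ, X = (r : ℝ) ^ (1 / 10 : ℝ) := ⟨_, rfl⟩
  rw [← hX] at h h1
  have hX0 : 0 ≤ X := by rw [hX]; positivity
  rcases h with ⟨h2, h3⟩ | h2
  · rcases Nat.lt_or_ge (d ^ 2) (r * m ^ 2) with h4 | h4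
    · refine of_close' le_rfl (by omega) hσ' h0 ?_
      have h5 : (d : ℝ) ^ 2 + 1 ≤ r * (m : ℝ) ^ 2 := by exact_mod_cast h4
      have h6 : (m : ℝ) ^ 2 * (r - σ) ≤ 1 := by
        have h8 : (m : ℝ) ^ 2 ≤ Real.exp X := by
          have h9 := pow_le_pow_left₀ (Nat.cast_nonneg m) h3 2
          rwa [← Real.exp_nat_mul, Nat.cast_ofNat, mul_div_cancel₀ X (by norm_num : (2 : ℝ) ≠ 0)]
            at h9
        calc (m : ℝ) ^ 2 * (r - σ) ≤ Real.exp X * Real.exp (-X) :=
              mul_le_mul h8 h1 (by linarith) (Real.exp_pos X).le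
          _ = 1 := by rw [← Real.exp_add, add_neg_cancel, Real.exp_zero]
      linarith
    · have h5 : r * m ^ 2 = d ^ 2 := le_antisymm h4 h2
      have hm : 0 < m := by
        rcases Nat.eq_zero_or_pos m with rfl | hm
        · have h6 : d ^ 2 = 0 := by rw [← h5]; ring
          have := pow_pos hd 2
          omega
        · exact hm
      obtain ⟨c, rfl, hc⟩ := isSquare_of_mul_sq hm h5
      refine Empt.of_square ?_ (by rw [hc, mul_comm])
      by_contra hc4
      have : c * c ≤ 3 * 3 := Nat.mul_le_mul (by omega) (by omega)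
      omega
  · refine of_close' le_rfl (by omega) hσ' h0 ?_
    have hsr : Real.sqrt r * Real.sqrt r = r := Real.mul_self_sqrt (by linarith)
    obtain ⟨e, he⟩ : ∃ e, e = Real.exp (-X) := ⟨_, rfl⟩
    have he0 : 0 < e := by rw [he]; exact Real.exp_pos _
    have he1 : e ≤ 1 := by
      rw [he, Real.exp_le_one_iff]
      linarith
    rw [← he] at h1 h2
    have hr0 : (0 : ℝ) < r := by linarith
    obtain ⟨ε, hε⟩ : ∃ ε, ε = e / r := ⟨_, rfl⟩
    have hε0 : 0 < ε := by rw [hε]; positivity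
    have hεr : ε * r = e := by
      rw [hε]
      field_simp
    rw [← hε] at h2
    have h3 : ((1 + ε) * d) ^ 2 ≤ m ^ 2 * r := by
      have h4 := pow_le_pow_left₀ (by positivity) h2 2
      rw [mul_pow (m : ℝ), pow_two (Real.sqrt r), hsr] at h4
      exact h4
    have h5 : (r : ℝ) ≤ (1 + ε) ^ 2 * σ := by
      have h5a : (1 + ε) ^ 2 * (r - e) ≤ (1 + ε) ^ 2 * σ :=
        mul_le_mul_of_nonneg_left (by linarith) (by positivity)
      have h5c : 2 * ε * e ≤ e := by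
        have h5d : 2 * ε ≤ 1 := by
          by_contra hcon
          push Not at hcon
          have h5e : 16 * ε ≤ ε * r := by
            have := mul_le_mul_of_nonneg_left hrR hε0.le
            linarith
          rw [hεr] at h5e
          linarith
        have := mul_le_mul_of_nonneg_right h5d he0.le
        linarith
      have h5b : (1 + ε) ^ 2 * (r - e) = r + (e - 2 * ε * e) + ε ^ 2 * (r - e) := by
        have : (1 + ε) ^ 2 * (r - e) = r - e + 2 * (ε * r) - 2 * ε * e + ε ^ 2 * (r - e) := by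
          ring
        rw [this, hεr]
        ring
      have h5f : 0 ≤ ε ^ 2 * (r - e) := mul_nonneg (sq_nonneg _) (by linarith)
      linarith
    have h6 : ((1 + ε) * d) ^ 2 ≤ (1 + ε) ^ 2 * (m ^ 2 * σ) := by
      calc ((1 + ε) * d) ^ 2 ≤ m ^ 2 * r := h3
        _ ≤ m ^ 2 * ((1 + ε) ^ 2 * σ) := mul_le_mul_of_nonneg_left h5 (by positivity)
        _ = (1 + ε) ^ 2 * (m ^ 2 * σ) := by ring
    rw [mul_pow] at h6
    exact le_of_mul_le_mul_left h6 (by positivity)

end Pool.Agent.W614.NagExp
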